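import Pool.Agent.Y498.FQ.Main
import Pool.Agent.Helper206.BoxS.SphereSC

set_option autoImplicit false
open Set Topology Filter Module

namespace Pool.Agent.Y498.FQ

/-! ### Simple connectivity -/

theorem simplyConnected_prod (X Y : Type*) [TopologicalSpace X] [TopologicalSpace Y]
    [SimplyConnectedSpace X] [SimplyConnectedSpace Y] : SimplyConnectedSpace (X × Y) := by
  rw [simply_connected_iff_paths_homotopic]
  refine ⟨inferInstance, fun a b => ⟨fun p q => ?_⟩⟩
  obtain ⟨a1, a2⟩ := a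
  obtain ⟨b1, b2⟩ := b
  rw [← Path.Homotopic.prod_projLeft_projRight p, ← Path.Homotopic.prod_projLeft_projRight q]
  congr 1
  · exact Subsingleton.elim _ _
  · exact Subsingleton.elim _ _

theorem simplyConnected_of_homeo {X Y : Type*} [TopologicalSpace X] [TopologicalSpace Y]
    (e : X ≃ₜ Y) [SimplyConnectedSpace Y] : SimplyConnectedSpace X :=
  e.toHomotopyEquiv.simplyConnectedSpace

/-- the punctured three-space -/
abbrev X1 : Type := {w : ℂ × ℝ // w ≠ 0}

theorem simplyConnected_X1 : SimplyConnectedSpace X1 := by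
  have hfr : finrank ℝ (ℂ × ℝ) = finrank ℝ (EuclideanSpace ℝ (Fin 3)) := by
    rw [finrank_prod, Complex.finrank_real_complex, finrank_self, finrank_euclideanSpace_fin]
  let L : (ℂ × ℝ) ≃L[ℝ] EuclideanSpace ℝ (Fin 3) := ContinuousLinearEquiv.ofFinrankEq hfr
  have e1 : X1 ≃ₜ ({0}ᶜ : Set (EuclideanSpace ℝ (Fin 3))) :=
    L.toHomeomorph.subtype (fun w => by
      change w ≠ 0 ↔ L w ∈ ({0}ᶜ : Set (EuclideanSpace ℝ (Fin 3)))
      simp)
  have e2 := e1.trans (homeomorphUnitSphereProd (EuclideanSpace ℝ (Fin 3)))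
  have h1 : SimplyConnectedSpace (Metric.sphere (0 : EuclideanSpace ℝ (Fin 3)) 1) :=
    Pool.Agent.Helper206.BoxS.Sph.simplyConnected_sphere (by simp)
  have h2 : ContractibleSpace (Ioi (0 : ℝ)) := (convex_Ioi 0).contractibleSpace ⟨1, by simp⟩
  have h3 := simplyConnected_prod (Metric.sphere (0 : EuclideanSpace ℝ (Fin 3)) 1) (Ioi (0 : ℝ))
  exact simplyConnected_of_homeo e2

/-- the product of three punctured three-spaces, as a product -/
def W3equiv : W3 ≃ₜ X1 × (X1 × X1) where
  toFun w := (⟨w.1 0, w.2 0⟩, (⟨w.1 1, w.2 1⟩, ⟨w.1 2, w.2 2⟩))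
  invFun p := ⟨![p.1.1, p.2.1.1, p.2.2.1], by
    intro j
    fin_cases j
    · exact p.1.2
    · exact p.2.1.2
    · exact p.2.2.2⟩
  left_inv w := by
    apply Subtype.ext
    funext j
    fin_cases j <;> rfl
  right_inv p := rfl
  continuous_toFun := by
    have h : ∀ j, Continuous (fun w : W3 => w.1 j) := fun j =>
      (continuous_apply j).comp continuous_subtype_val
    exact ((h 0).subtype_mk _).prodMk (((h 1).subtype_mk _).prodMk ((h 2).subtype_mk _))
  continuous_invFun := by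
    apply Continuous.subtype_mk
    rw [continuous_pi_iff]
    intro j
    fin_cases j
    · exact continuous_subtype_val.comp continuous_fst
    · exact continuous_subtype_val.comp (continuous_fst.comp continuous_snd)
    · exact continuous_subtype_val.comp (continuous_snd.comp continuous_snd)

theorem simplyConnected_W3 : SimplyConnectedSpace W3 := by
  have := simplyConnected_X1
  have := simplyConnected_prod X1 X1
  have := simplyConnected_prod X1 (X1 × X1)
  exact simplyConnected_of_homeo W3equiv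

/-! ### The orbit space -/

theorem exists_openEmbedding : ∃ g : W3 → EuclideanSpace ℝ (Fin 9), IsOpenEmbedding g := by
  have hfr : finrank ℝ (Fin 3 → ℂ × ℝ) = finrank ℝ (EuclideanSpace ℝ (Fin 9)) := by
    rw [finrank_pi_fintype]
    simp [finrank_prod, Complex.finrank_real_complex]
  let L : (Fin 3 → ℂ × ℝ) ≃L[ℝ] EuclideanSpace ℝ (Fin 9) := ContinuousLinearEquiv.ofFinrankEq hfr
  refine ⟨fun w => L w.1, L.toHomeomorph.isOpenEmbedding.comp ?_⟩
  have : IsOpen {w : Fin 3 → ℂ × ℝ | ∀ j, w j ≠ 0} := by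
    have : {w : Fin 3 → ℂ × ℝ | ∀ j, w j ≠ 0} = ⋂ j, {w | w j ≠ 0} := by
      ext w
      simp
    rw [this]
    exact isOpen_iInter_of_finite fun j => isOpen_ne.preimage (continuous_apply j)
  exact this.isOpenEmbedding_subtypeVal

theorem rel_of_eqvGen {Y : Type*} {Φ : ℝ → Y → Y} (h0 : ∀ x, Φ 0 x = x)
    (hadd : ∀ s t x, Φ (s + t) x = Φ s (Φ t x)) {x y : Y}
    (h : Relation.EqvGen (fun x y : Y => ∃ t : ℝ, Φ t x = y) x y) : ∃ t : ℝ, Φ t x = y := by
  induction h with
  | rel x y h => exact h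
  | refl x => exact ⟨0, h0 x⟩
  | symm x y _ ih =>
    obtain ⟨t, rfl⟩ := ih
    exact ⟨-t, by rw [← hadd, neg_add_cancel, h0]⟩
  | trans x y z _ _ ih1 ih2 =>
    obtain ⟨t, rfl⟩ := ih1
    obtain ⟨s, rfl⟩ := ih2
    exact ⟨s + t, hadd _ _ _⟩

/-- The orbit space of a continuous flow, with its quotient map. -/
theorem oflow_of_homeo {Y Q : Type*} [TopologicalSpace Y] [TopologicalSpace Q] {Φ : ℝ → Y → Y}
    (hc : Continuous (fun p : ℝ × Y => Φ p.1 p.2)) (h0 : ∀ x, Φ 0 x = x)
    (hadd : ∀ s t x, Φ (s + t) x = Φ s (Φ t x))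
    (ψ : Quot (fun x y : Y => ∃ t : ℝ, Φ t x = y) ≃ₜ Q) :
    OFlow Φ (fun x => ψ (Quot.mk _ x)) where
  cont := hc
  zero := h0
  add := hadd
  fcont := ψ.continuous.comp continuous_quot_mk
  fopen := by
    intro O hO
    have e : (fun x => ψ (Quot.mk _ x)) '' O =
        ψ '' (Quot.mk (fun x y : Y => ∃ t : ℝ, Φ t x = y) '' O) := by
      rw [image_image]
    rw [e]
    apply ψ.isOpenMap
    rw [← isQuotientMap_quot_mk.isOpen_preimage]
    have e2 : Quot.mk (fun x y : Y => ∃ t : ℝ, Φ t x = y) ⁻¹'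
        (Quot.mk (fun x y : Y => ∃ t : ℝ, Φ t x = y) '' O) = ⋃ t : ℝ, Φ t ⁻¹' O := by
      ext x
      simp only [mem_preimage, mem_image, mem_iUnion]
      constructor
      · rintro ⟨y, hy, hyx⟩
        obtain ⟨t, rfl⟩ := rel_of_eqvGen h0 hadd (Quot.eqvGen_exact hyx.symm)
        exact ⟨t, hy⟩
      · rintro ⟨t, ht⟩
        exact ⟨Φ t x, ht, (Quot.sound ⟨t, rfl⟩).symm⟩
    rw [e2]
    exact isOpen_iUnion fun t => hO.preimage (hc.comp (continuous_const.prodMk continuous_id))
  fibre := by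
    intro x y
    constructor
    · intro h
      exact rel_of_eqvGen h0 hadd (Quot.eqvGen_exact (ψ.injective h))
    · intro h
      exact congrArg ψ (Quot.sound h)

/-- **The negative answer.** The product of three punctured three-spaces is not homeomorphic to the
orbit space of any continuous flow on a Euclidean space. -/
theorem no_flow {m : ℕ} {Φ : ℝ → EuclideanSpace ℝ (Fin m) → EuclideanSpace ℝ (Fin m)}
    (hc : Continuous (fun p : ℝ × EuclideanSpace ℝ (Fin m) => Φ p.1 p.2)) (h0 : ∀ x, Φ 0 x = x)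
    (hadd : ∀ s t x, Φ (s + t) x = Φ s (Φ t x)) :
    IsEmpty (Quot (fun x y : EuclideanSpace ℝ (Fin m) => ∃ t : ℝ, Φ t x = y) ≃ₜ W3) := by
  refine ⟨fun ψ => ?_⟩
  refine not_orbit_space (Q := W3) (fun q => q.1) continuous_subtype_val (fun q j => q.2 j)
    (fun w => w) continuous_id (fun w => rfl) (oflow_of_homeo hc h0 hadd ψ) ?_
  exact ψ.surjective.comp Quot.mk_surjective

end Pool.Agent.Y498.FQ
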