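import Mathlib

set_option autoImplicit false
open Set Topology Filter

namespace Pool.Agent.Y498.FQ

/-- A continuous real flow `φ` on `Y` together with an open continuous map `f` whose fibres are the
orbits.  Nothing is assumed about local sections. -/
structure OFlow {Y N : Type*} [TopologicalSpace Y] [TopologicalSpace N] (φ : ℝ → Y → Y)
    (f : Y → N) : Prop where
  cont : Continuous (fun p : ℝ × Y => φ p.1 p.2)
  zero : ∀ y, φ 0 y = y
  add : ∀ s t y, φ (s + t) y = φ s (φ t y)
  fcont : Continuous f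
  fopen : IsOpenMap f
  fibre : ∀ x y, f x = f y ↔ ∃ t, φ t x = y

variable {Y N : Type*} [TopologicalSpace Y] [TopologicalSpace N] {φ : ℝ → Y → Y} {f : Y → N}

theorem OFlow.orbit_cont (h : OFlow φ f) (y : Y) : Continuous (fun t => φ t y) :=
  h.cont.comp (continuous_id.prodMk continuous_const)

theorem OFlow.time_cont (h : OFlow φ f) (t : ℝ) : Continuous (φ t) :=
  h.cont.comp (continuous_const.prodMk continuous_id)

theorem OFlow.f_flow (h : OFlow φ f) (t : ℝ) (y : Y) : f (φ t y) = f y :=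
  ((h.fibre y (φ t y)).2 ⟨t, rfl⟩).symm

theorem OFlow.fibre_eq (h : OFlow φ f) (y : Y) : f ⁻¹' {f y} = range (fun t => φ t y) := by
  ext z
  simp only [mem_preimage, mem_singleton_iff, mem_range]
  rw [eq_comm, h.fibre y z]

theorem OFlow.conn (h : OFlow φ f) (n : N) : IsPreconnected (f ⁻¹' {n}) := by
  by_cases hn : ∃ y, f y = n
  · obtain ⟨y, rfl⟩ := hn
    rw [h.fibre_eq]
    exact isPreconnected_range (h.orbit_cont y)
  · have : f ⁻¹' {n} = ∅ := by
      ext z
      simp only [mem_preimage, mem_singleton_iff, mem_empty_iff_false, iff_false]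
      exact fun hz => hn ⟨z, hz⟩
    rw [this]
    exact isPreconnected_empty

/-- compact orbits are stable -/
theorem OFlow.stable [T2Space Y] [LocallyCompactSpace Y] [T2Space N] (h : OFlow φ f) {y0 : Y}
    (hc : IsCompact (f ⁻¹' {f y0})) {O : Set Y} (hO : IsOpen O) (hsub : f ⁻¹' {f y0} ⊆ O) :
    ∃ L : Set Y, IsCompact L ∧ L ⊆ O ∧ ∀ᶠ n in 𝓝 (f y0), f ⁻¹' {n} ⊆ L := by
  obtain ⟨L, hL, h1, h2⟩ := exists_compact_between hc hO hsub
  refine ⟨L, hL, h2, ?_⟩
  have hfr : IsCompact (frontier (interior L)) := by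
    apply hL.of_isClosed_subset isClosed_frontier
    exact (frontier_subset_closure.trans (closure_mono interior_subset)).trans
      hL.isClosed.closure_subset
  have hcl : IsClosed (f '' frontier (interior L)) := (hfr.image h.fcont).isClosed
  have hnot : f y0 ∉ f '' frontier (interior L) := by
    rintro ⟨z, hz, hzf⟩
    have : z ∈ interior L := h1 hzf
    have hfe := (isOpen_interior (s := L)).frontier_eq
    rw [hfe] at hz
    exact hz.2 this
  have e1 : ∀ᶠ n in 𝓝 (f y0), n ∉ f '' frontier (interior L) := hcl.isOpen_compl.mem_nhds hnot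
  have e2 : ∀ᶠ n in 𝓝 (f y0), n ∈ f '' interior L :=
    (h.fopen _ isOpen_interior).mem_nhds ⟨y0, h1 rfl, rfl⟩
  filter_upwards [e1, e2] with n hn1 hn2
  obtain ⟨z, hz, rfl⟩ := hn2
  by_contra hcon
  obtain ⟨w, hw, hwL⟩ := not_subset.1 hcon
  have hfe := (isOpen_interior (s := L)).frontier_eq
  have hcov : f ⁻¹' {f z} ⊆ interior L ∪ (closure (interior L))ᶜ := by
    intro v hv
    by_contra hv'
    simp only [mem_union, mem_compl_iff, not_or, not_not] at hv'
    exact hn1 ⟨v, by rw [hfe]; exact ⟨hv'.2, hv'.1⟩, hv⟩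
  obtain ⟨v, -, hv1, hv2⟩ := h.conn (f z) _ _ isOpen_interior isClosed_closure.isOpen_compl hcov
    ⟨z, rfl, hz⟩ ⟨w, hw, fun hw' => hwL (by
      have : closure (interior L) ⊆ L := (closure_mono interior_subset).trans
        hL.isClosed.closure_subset
      exact this hw')⟩
  exact hv2 (subset_closure hv1)

theorem OFlow.compact_nhds [T2Space Y] [LocallyCompactSpace Y] [T2Space N] (h : OFlow φ f) {y0 : Y}
    (hc : IsCompact (f ⁻¹' {f y0})) : ∀ᶠ n in 𝓝 (f y0), IsCompact (f ⁻¹' {n}) := by
  obtain ⟨L, hL, -, h2⟩ := h.stable hc isOpen_univ (subset_univ _)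
  filter_upwards [h2] with n hn
  exact hL.of_isClosed_subset (isClosed_singleton.preimage h.fcont) hn

/-- The orbit map is an open map onto the fibre. -/
theorem OFlow.orbit_open [T2Space Y] [LocallyCompactSpace Y] [T1Space N] (h : OFlow φ f) (y : Y) :
    IsOpenMap (fun t : ℝ => (⟨φ t y, h.f_flow t y⟩ : f ⁻¹' {f y})) := by
  have hcl : IsClosed (f ⁻¹' {f y}) := isClosed_singleton.preimage h.fcont
  have : LocallyCompactSpace (f ⁻¹' {f y}) := hcl.isClosedEmbedding_subtypeVal.locallyCompactSpace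
  let A : AddAction ℝ (f ⁻¹' {f y}) :=
    { vadd := fun t z => ⟨φ t z.1, by
        have hz : f z.1 = f y := z.2
        change f (φ t z.1) = f y
        rw [h.f_flow]; exact hz⟩
      zero_vadd := fun z => Subtype.ext (h.zero z.1)
      add_vadd := fun s t z => Subtype.ext (h.add s t z.1) }
  have hcv : ContinuousVAdd ℝ (f ⁻¹' {f y}) := ⟨by
    apply Continuous.subtype_mk
    exact h.cont.comp (continuous_fst.prodMk (continuous_subtype_val.comp continuous_snd))⟩
  have htr : AddAction.IsPretransitive ℝ (f ⁻¹' {f y}) := ⟨by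
    intro a b
    have ha : f a.1 = f y := a.2
    have hb : f b.1 = f y := b.2
    obtain ⟨t, ht⟩ := (h.fibre a.1 b.1).1 (ha.trans hb.symm)
    exact ⟨t, Subtype.ext ht⟩⟩
  exact isOpenMap_vadd_of_sigmaCompact (G := ℝ) (⟨y, rfl⟩ : f ⁻¹' {f y})

/-- If the orbit map is injective it is a homeomorphism onto the fibre, so the set of times at
which the orbit is in a compact set is compact. -/
theorem OFlow.compact_times [T2Space Y] [LocallyCompactSpace Y] [T1Space N] (h : OFlow φ f) {y : Y}
    (hfree : ∀ t, φ t y = y → t = 0) {S : Set Y} (hS : IsCompact S) :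
    IsCompact {t : ℝ | φ t y ∈ S} := by
  have hinj : Function.Injective (fun t : ℝ => (⟨φ t y, h.f_flow t y⟩ : f ⁻¹' {f y})) := by
    intro a b hab
    have hab' : φ a y = φ b y := congrArg Subtype.val hab
    have : φ (-b + a) y = y := by rw [h.add, hab', ← h.add, neg_add_cancel, h.zero]
    have := hfree _ this
    linarith
  have hsurj : Function.Surjective (fun t : ℝ => (⟨φ t y, h.f_flow t y⟩ : f ⁻¹' {f y})) := by
    intro z
    obtain ⟨t, ht⟩ := (h.fibre y z.1).1 (Eq.symm z.2)
    exact ⟨t, Subtype.ext ht⟩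
  let e : ℝ ≃ₜ f ⁻¹' {f y} := (Equiv.ofBijective _ ⟨hinj, hsurj⟩).toHomeomorphOfContinuousOpen
    (by
      apply Continuous.subtype_mk
      exact h.orbit_cont y) (h.orbit_open y)
  have hcl : IsClosed (f ⁻¹' {f y}) := isClosed_singleton.preimage h.fcont
  have h1 : IsCompact (Subtype.val ⁻¹' S : Set (f ⁻¹' {f y})) :=
    hcl.isClosedEmbedding_subtypeVal.isCompact_preimage hS
  have h2 := e.isCompact_preimage.2 h1
  exact h2

theorem OFlow.periodic [T2Space Y] [LocallyCompactSpace Y] [T1Space N] (h : OFlow φ f) {y : Y}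
    (hc : IsCompact (f ⁻¹' {f y})) : ∃ T > 0, φ T y = y := by
  by_contra hcon
  push Not at hcon
  have hfree : ∀ t, φ t y = y → t = 0 := by
    intro t ht
    by_contra hne
    rcases lt_or_gt_of_ne hne with h0 | h0
    · apply hcon (-t) (by linarith)
      conv_lhs => rw [← ht]
      rw [← h.add, neg_add_cancel, h.zero]
    · exact hcon t h0 ht
  have h1 := h.compact_times hfree hc
  have h2 : {t : ℝ | φ t y ∈ f ⁻¹' {f y}} = univ := by
    ext t
    simp only [mem_preimage, mem_singleton_iff, mem_ofPred_eq, mem_univ, iff_true]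
    exact h.f_flow t y
  rw [h2] at h1
  exact noncompact_univ ℝ h1

theorem OFlow.compact_of_periodic (h : OFlow φ f) {y : Y} {T : ℝ} (hT0 : T ≠ 0)
    (hT : φ T y = y) : IsCompact (f ⁻¹' {f y}) := by
  have hT' : φ |T| y = y := by
    rcases le_total 0 T with h0 | h0
    · rwa [abs_of_nonneg h0]
    · rw [abs_of_nonpos h0]
      conv_lhs => rw [← hT]
      rw [← h.add, neg_add_cancel, h.zero]
  have hper : Function.Periodic (fun t => φ t y) |T| := by
    intro s
    simp only
    rw [h.add, hT']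
  rw [h.fibre_eq]
  have : range (fun t => φ t y) = (fun t => φ t y) '' Icc 0 |T| := by
    apply Subset.antisymm
    · rintro _ ⟨t, rfl⟩
      obtain ⟨s, hs, hs'⟩ := hper.exists_mem_Ico₀ (abs_pos.2 hT0) t
      exact ⟨s, ⟨hs.1, hs.2.le⟩, hs'.symm⟩
    · rintro _ ⟨t, -, rfl⟩
      exact ⟨t, rfl⟩
  rw [this]
  exact isCompact_Icc.image (h.orbit_cont y)

/-- the pullback of `f : Y → N` along `e : N' → N` -/
abbrev PB {Y N N' : Type*} (f : Y → N) (e : N' → N) : Type _ := {p : Y × N' // f p.1 = e p.2}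

/-- the pulled back flow -/
def PB.flow {N' : Type*} (h : OFlow φ f) (e : N' → N) (t : ℝ) (p : PB f e) : PB f e :=
  ⟨(φ t p.1.1, p.1.2), by rw [h.f_flow]; exact p.2⟩

theorem OFlow.pull {N' : Type*} [TopologicalSpace N'] (h : OFlow φ f) {e : N' → N}
    (he : Continuous e) : OFlow (PB.flow h e) (fun p : PB f e => p.1.2) where
  cont := by
    apply Continuous.subtype_mk
    exact (h.cont.comp (continuous_fst.prodMk
      (continuous_fst.comp (continuous_subtype_val.comp continuous_snd)))).prodMk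
      (continuous_snd.comp (continuous_subtype_val.comp continuous_snd))
  zero p := Subtype.ext (Prod.ext (h.zero _) rfl)
  add s t p := Subtype.ext (Prod.ext (h.add _ _ _) rfl)
  fcont := continuous_snd.comp continuous_subtype_val
  fopen := by
    intro O hO
    obtain ⟨O', hO', rfl⟩ := isOpen_induced_iff.1 hO
    rw [isOpen_iff_mem_nhds]
    rintro _ ⟨p, hp, rfl⟩
    obtain ⟨A, B, hA, hB, hpA, hpB, hAB⟩ := isOpen_prod_iff.1 hO' p.1.1 p.1.2 hp
    have h1 : B ∩ e ⁻¹' (f '' A) ∈ 𝓝 p.1.2 :=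
      (hB.inter ((h.fopen A hA).preimage he)).mem_nhds ⟨hpB, p.1.1, hpA, p.2⟩
    filter_upwards [h1] with n hn
    obtain ⟨hn1, q, hq, hqe⟩ := hn
    exact ⟨⟨(q, n), hqe⟩, hAB (Set.mk_mem_prod hq hn1), rfl⟩
  fibre := by
    intro x y
    constructor
    · intro hxy
      have hxy' : x.1.2 = y.1.2 := hxy
      have : f x.1.1 = f y.1.1 := by rw [x.2, y.2, hxy']
      obtain ⟨t, ht⟩ := (h.fibre _ _).1 this
      exact ⟨t, Subtype.ext (Prod.ext ht hxy')⟩
    · rintro ⟨t, rfl⟩
      rfl

/-- restriction of a flow to the part over an open subset of the base -/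
def RS.flow (h : OFlow φ f) (B : Set N) (t : ℝ) (p : {y : Y // f y ∈ B}) : {y : Y // f y ∈ B} :=
  ⟨φ t p.1, by rw [h.f_flow]; exact p.2⟩

theorem OFlow.restrict (h : OFlow φ f) {B : Set N} (hB : IsOpen B) :
    OFlow (RS.flow h B) (fun p : {y : Y // f y ∈ B} => f p.1) where
  cont := by
    apply Continuous.subtype_mk
    exact h.cont.comp (continuous_fst.prodMk (continuous_subtype_val.comp continuous_snd))
  zero p := Subtype.ext (h.zero _)
  add s t p := Subtype.ext (h.add _ _ _)
  fcont := h.fcont.comp continuous_subtype_val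
  fopen := h.fopen.comp (hB.preimage h.fcont).isOpenMap_subtype_val
  fibre := by
    intro x y
    rw [h.fibre x.1 y.1]
    constructor
    · rintro ⟨t, ht⟩
      exact ⟨t, Subtype.ext ht⟩
    · rintro ⟨t, rfl⟩
      exact ⟨t, rfl⟩

end Pool.Agent.Y498.FQ
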