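import Pool.Agent.H289R3.FQ.Tasks

set_option autoImplicit false
open Set Topology Filter
open scoped ComplexConjugate

namespace Pool.Agent.Y498.FQ

open Pool.Agent.H289R3.FQ (T1)

/-! ### The angle -/

/-- the angle of a complex number, in `ℝ/ℤ` -/
noncomputable def ang (z : ℂ) : T1 :=
  (AddCircle.homeomorphCircle (T := 1) one_ne_zero).symm (Circle.exp (Complex.arg z))

theorem toCircle_ang {z : ℂ} (hz : z ≠ 0) : (AddCircle.toCircle (ang z) : ℂ) = z / ‖z‖ := by
  have hz' : (‖z‖ : ℂ) ≠ 0 := by simpa using hz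
  have h1 : AddCircle.toCircle (ang z) = Circle.exp (Complex.arg z) := by
    rw [← AddCircle.homeomorphCircle_apply (T := 1) one_ne_zero, ang, Homeomorph.apply_symm_apply]
  rw [h1, Circle.coe_exp, eq_div_iff hz', mul_comm]
  exact Complex.norm_mul_exp_arg_mul_I z

theorem ang_cont {z : ℂ} (hz : z ≠ 0) : ContinuousAt ang z := by
  apply (AddCircle.homeomorphCircle (T := 1) one_ne_zero).symm.continuous.continuousAt.comp
  refine (Topology.IsInducing.continuousAt_iff
    (⟨rfl⟩ : Topology.IsInducing (fun c : Circle => (c : ℂ)))).2 ?_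
  have h1 : ContinuousAt (fun w : ℂ => w / ‖w‖) z := by
    apply ContinuousAt.div continuousAt_id
    · exact (Complex.continuous_ofReal.comp continuous_norm).continuousAt
    · simpa using hz
  apply h1.congr
  filter_upwards [isOpen_ne.mem_nhds hz] with w hw
  have hw' : (‖w‖ : ℂ) ≠ 0 := by simpa using hw
  change w / ‖w‖ = (Circle.exp (Complex.arg w) : ℂ)
  rw [Circle.coe_exp, div_eq_iff hw', mul_comm]
  exact (Complex.norm_mul_exp_arg_mul_I w).symm

/-- `e(u) = exp (2πiu)` -/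
noncomputable def ex (u : ℝ) : ℂ := Complex.exp (2 * Real.pi * u * Complex.I)

theorem ex_cont : Continuous ex := by unfold ex; fun_prop

theorem ex_add (u v : ℝ) : ex (u + v) = ex u * ex v := by
  unfold ex
  rw [← Complex.exp_add]
  congr 1
  push_cast
  ring

theorem ex_int (n : ℤ) : ex n = 1 := by
  unfold ex
  rw [show (2 * Real.pi * ((n : ℝ) : ℂ) * Complex.I : ℂ) = n * (2 * Real.pi * Complex.I) by
    push_cast; ring]
  exact Complex.exp_int_mul_two_pi_mul_I n

theorem ex_norm (u : ℝ) : ‖ex u‖ = 1 := by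
  unfold ex
  rw [show (2 * Real.pi * (u : ℂ) * Complex.I : ℂ) = ((2 * Real.pi * u : ℝ) : ℂ) * Complex.I by
    push_cast; ring]
  exact Complex.norm_exp_ofReal_mul_I _

theorem ex_ne (u : ℝ) : ex u ≠ 0 := Complex.exp_ne_zero _

theorem toCircle_coe (u : ℝ) : (AddCircle.toCircle (u : T1) : ℂ) = ex u := by
  rw [AddCircle.toCircle_apply_mk, Circle.coe_exp]
  unfold ex
  congr 1
  push_cast
  ring

theorem ang_mul {z : ℂ} (hz : z ≠ 0) (u : ℝ) : ang (ex u * z) = ang z + (u : T1) := by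
  apply AddCircle.injective_toCircle (T := 1) one_ne_zero
  apply Subtype.ext
  change (AddCircle.toCircle (ang (ex u * z)) : ℂ) = (AddCircle.toCircle (ang z + (u : T1)) : ℂ)
  rw [AddCircle.toCircle_add, Circle.coe_mul, toCircle_ang hz,
    toCircle_ang (mul_ne_zero (ex_ne u) hz), toCircle_coe, norm_mul, ex_norm, one_mul]
  ring

/-! ### A quasi-periodic vector function -/

/-- the formula on the strip `k ≤ v ≤ k + 1` -/
noncomputable def GG (k : ℤ) (p : ℝ × ℝ) : ℂ × ℂ :=
  (ex (k * p.1) * ((1 - (p.2 - k : ℝ) : ℝ) + (p.2 - k : ℝ) * ex p.1),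
    ex (k * p.1) * (((p.2 - k) * (1 - (p.2 - k)) : ℝ) : ℂ))

theorem GG_cont (k : ℤ) : Continuous (GG k) := by
  have := ex_cont
  unfold GG
  fun_prop

theorem GG_glue (k : ℤ) (u : ℝ) : GG (k - 1) (u, k) = GG k (u, k) := by
  unfold GG
  have e1 : ex (k * u) = ex (((k - 1 : ℤ) : ℝ) * u) * ex u := by
    rw [← ex_add]
    congr 1
    push_cast
    ring
  apply Prod.ext
  · simp only
    rw [e1]
    push_cast
    ring
  · simp only
    push_cast
    ring

/-- the quasi-periodic vector function -/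
noncomputable def ZZ (p : ℝ × ℝ) : ℂ × ℂ := GG ⌊p.2⌋ p

theorem ZZ_cont : Continuous ZZ := by
  rw [continuous_iff_continuousAt]
  rintro ⟨u0, v0⟩
  set k := ⌊v0⌋ with hk
  have hk1 : (k : ℝ) ≤ v0 := Int.floor_le v0
  have hk2 : v0 < k + 1 := Int.lt_floor_add_one v0
  rcases hk1.lt_or_eq with hlt | heq
  · have : ZZ =ᶠ[𝓝 (u0, v0)] GG k := by
      have h1 : ∀ᶠ p : ℝ × ℝ in 𝓝 (u0, v0), p.2 ∈ Ioo (k : ℝ) (k + 1) :=
        continuous_snd.continuousAt (isOpen_Ioo.mem_nhds ⟨hlt, hk2⟩)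
      filter_upwards [h1] with p hp
      have : ⌊p.2⌋ = k := Int.floor_eq_iff.2 ⟨hp.1.le, hp.2⟩
      rw [ZZ, this]
    exact (GG_cont k).continuousAt.congr this.symm
  · have hv : ZZ (u0, v0) = GG k (u0, v0) := rfl
    have hv' : GG (k - 1) (u0, v0) = GG k (u0, v0) := by rw [← heq]; exact GG_glue k u0
    rw [ContinuousAt, hv, Metric.tendsto_nhds]
    intro ε hε
    have h1 := Metric.tendsto_nhds.1 ((GG_cont k).tendsto (u0, v0)) ε hε
    have h2 := Metric.tendsto_nhds.1 ((GG_cont (k - 1)).tendsto (u0, v0)) ε hε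
    rw [hv'] at h2
    have h3 : ∀ᶠ p : ℝ × ℝ in 𝓝 (u0, v0), p.2 ∈ Ioo ((k : ℝ) - 1) (k + 1) :=
      continuous_snd.continuousAt (isOpen_Ioo.mem_nhds ⟨by simp only; linarith, hk2⟩)
    filter_upwards [h1, h2, h3] with p hp1 hp2 hp3
    by_cases hp : (k : ℝ) ≤ p.2
    · have : ⌊p.2⌋ = k := Int.floor_eq_iff.2 ⟨hp, hp3.2⟩
      rw [ZZ, this]
      exact hp1
    · have : ⌊p.2⌋ = k - 1 := Int.floor_eq_iff.2 ⟨by push_cast; exact hp3.1.le,
        by push_cast; linarith⟩
      rw [ZZ, this]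
      exact hp2

theorem ZZ_u (u v : ℝ) : ZZ (u + 1, v) = ZZ (u, v) := by
  have e1 : ex (u + 1) = ex u := by
    have := ex_int 1
    rw [ex_add]
    simp only [Int.cast_one] at this
    rw [this, mul_one]
  have e2 : ex ((⌊v⌋ : ℝ) * (u + 1)) = ex ((⌊v⌋ : ℝ) * u) := by
    rw [mul_add, mul_one, ex_add, ex_int, mul_one]
  simp only [ZZ, GG, e1, e2]

theorem ZZ_v (u v : ℝ) : ZZ (u, v + 1) = (ex u * (ZZ (u, v)).1, ex u * (ZZ (u, v)).2) := by
  have e1 : ex (((⌊v⌋ + 1 : ℤ) : ℝ) * u) = ex ((⌊v⌋ : ℝ) * u) * ex u := by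
    rw [← ex_add]
    congr 1
    push_cast
    ring
  simp only [ZZ, GG, Int.floor_add_one, e1]
  apply Prod.ext
  · simp only
    push_cast
    ring
  · simp only
    push_cast
    ring

theorem ZZ_ne (p : ℝ × ℝ) : ZZ p ≠ 0 := by
  intro h
  have h1 := congrArg Prod.fst h
  have h2 := congrArg Prod.snd h
  simp only [ZZ, GG, Prod.fst_zero, Prod.snd_zero, mul_eq_zero, ex_ne, false_or,
    Complex.ofReal_eq_zero] at h1 h2
  rcases h2 with h2 | h2
  · rw [h2] at h1
    simp at h1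
  · have := Int.lt_floor_add_one p.2
    linarith

/-! ### The Hopf map and eigenlines -/

/-- the Hopf map `ℂ² → ℂ × ℝ` -/
noncomputable def hopf (z : ℂ × ℂ) : ℂ × ℝ :=
  (2 * z.1 * conj z.2, Complex.normSq z.1 - Complex.normSq z.2)

theorem hopf_cont : Continuous hopf := by
  unfold hopf
  have := Complex.continuous_normSq
  have := Complex.continuous_conj
  fun_prop

/-- the norm on `ℂ × ℝ` -/
noncomputable def rr (w : ℂ × ℝ) : ℝ := Real.sqrt (Complex.normSq w.1 + w.2 ^ 2)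

theorem rr_cont : Continuous rr := by
  unfold rr
  have := Complex.continuous_normSq
  fun_prop

theorem rr_sq (w : ℂ × ℝ) : rr w ^ 2 = Complex.normSq w.1 + w.2 ^ 2 :=
  Real.sq_sqrt (add_nonneg (Complex.normSq_nonneg _) (sq_nonneg _))

theorem rr_nonneg (w : ℂ × ℝ) : 0 ≤ rr w := Real.sqrt_nonneg _

theorem rr_pos {w : ℂ × ℝ} (hw : w ≠ 0) : 0 < rr w := by
  apply Real.sqrt_pos.2
  have h1 := Complex.normSq_nonneg w.1
  have h2 := sq_nonneg w.2
  by_contra hcon
  have h3 : Complex.normSq w.1 = 0 := by linarith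
  have h4 : w.2 ^ 2 = 0 := by linarith
  apply hw
  apply Prod.ext
  · exact Complex.normSq_eq_zero.1 h3
  · exact pow_eq_zero_iff (two_ne_zero) |>.1 h4

/-- the operator with square `rr w ^ 2` -/
noncomputable def HH (w : ℂ × ℝ) (z : ℂ × ℂ) : ℂ × ℂ :=
  (w.2 * z.1 + w.1 * z.2, conj w.1 * z.1 - w.2 * z.2)

/-- the eigenline of `HH w` for the eigenvalue `rr w` -/
def EL (w : ℂ × ℝ) (z : ℂ × ℂ) : Prop :=
  w.2 * z.1 + w.1 * z.2 = rr w * z.1 ∧ conj w.1 * z.1 - w.2 * z.2 = rr w * z.2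

theorem rr_hopf (z : ℂ × ℂ) : rr (hopf z) = Complex.normSq z.1 + Complex.normSq z.2 := by
  unfold rr
  rw [Real.sqrt_eq_iff_mul_self_eq]
  · simp only [hopf, Complex.normSq_mul, Complex.normSq_conj]
    have : Complex.normSq 2 = 4 := by simp [Complex.normSq_apply]; norm_num
    rw [this]
    ring
  · exact add_nonneg (Complex.normSq_nonneg _) (sq_nonneg _)
  · exact add_nonneg (Complex.normSq_nonneg _) (Complex.normSq_nonneg _)

theorem EL_hopf (z : ℂ × ℂ) : EL (hopf z) z := by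
  unfold EL
  rw [rr_hopf]
  simp only [hopf, map_mul, Complex.conj_conj]
  have h1 : ((Complex.normSq z.1 : ℝ) : ℂ) = z.1 * conj z.1 := (Complex.mul_conj z.1).symm
  have h2 : ((Complex.normSq z.2 : ℝ) : ℂ) = z.2 * conj z.2 := (Complex.mul_conj z.2).symm
  have h3 : conj (2 : ℂ) = 2 := Complex.conj_ofNat 2
  push_cast
  rw [h1, h2, h3]
  constructor <;> ring

theorem hopf_ne {z : ℂ × ℂ} (hz : z ≠ 0) : hopf z ≠ 0 := by
  intro h
  have h1 := rr_hopf z
  rw [h] at h1
  have h2 : rr 0 = 0 := by simp [rr]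
  rw [h2] at h1
  have h3 := Complex.normSq_nonneg z.1
  have h4 := Complex.normSq_nonneg z.2
  apply hz
  apply Prod.ext
  · exact Complex.normSq_eq_zero.1 (by linarith)
  · exact Complex.normSq_eq_zero.1 (by linarith)

theorem hopf_ex (u : ℝ) (z : ℂ × ℂ) : hopf (ex u * z.1, ex u * z.2) = hopf z := by
  have h1 : ex u * conj (ex u) = 1 := by
    rw [Complex.mul_conj, Complex.normSq_eq_norm_sq, ex_norm]; simp
  have h2 : Complex.normSq (ex u) = 1 := by rw [Complex.normSq_eq_norm_sq, ex_norm]; simp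
  simp only [hopf, map_mul, Complex.normSq_mul, h2, one_mul]
  apply Prod.ext
  · simp only
    linear_combination (2 * z.1 * conj z.2) * h1
  · rfl

/-- Two nonzero vectors of one eigenline have nonzero inner product. -/
theorem inner_ne {w : ℂ × ℝ} (hw : w ≠ 0) {z z' : ℂ × ℂ} (hz : z ≠ 0) (hz' : z' ≠ 0)
    (h : EL w z) (h' : EL w z') : conj z.1 * z'.1 + conj z.2 * z'.2 ≠ 0 := by
  have hr := rr_pos hw
  obtain ⟨h1, h2⟩ := h
  obtain ⟨h1', h2'⟩ := h'
  have hpar : z.1 * z'.2 - z.2 * z'.1 = 0 := by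
    have e : (2 * (rr w : ℂ)) * (z.1 * z'.2 - z.2 * z'.1) = 0 := by
      linear_combination (-z'.2) * h1 + z'.1 * h2 + z.2 * h1' - z.1 * h2'
    rcases mul_eq_zero.1 e with e | e
    · exfalso
      have : (rr w : ℂ) = 0 := by
        rcases mul_eq_zero.1 e with e | e
        · norm_num at e
        · exact e
      exact hr.ne' (by exact_mod_cast this)
    · exact e
  intro h0
  have hL : (Complex.normSq z.1 + Complex.normSq z.2) *
      (Complex.normSq z'.1 + Complex.normSq z'.2) = 0 := by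
    have : (((Complex.normSq z.1 + Complex.normSq z.2) *
      (Complex.normSq z'.1 + Complex.normSq z'.2) : ℝ) : ℂ) = 0 := by
      push_cast
      rw [← Complex.mul_conj, ← Complex.mul_conj, ← Complex.mul_conj, ← Complex.mul_conj]
      have hc0 : conj (conj z.1 * z'.1 + conj z.2 * z'.2) = 0 := by rw [h0, map_zero]
      have hcp : conj (z.1 * z'.2 - z.2 * z'.1) = 0 := by rw [hpar, map_zero]
      simp only [map_add, map_sub, map_mul, Complex.conj_conj] at hc0 hcp
      linear_combination (z.1 * conj z'.1 + z.2 * conj z'.2) * h0 +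
        (conj z.1 * conj z'.2 - conj z.2 * conj z'.1) * hpar
    exact_mod_cast this
  have n1 := Complex.normSq_nonneg z.1
  have n2 := Complex.normSq_nonneg z.2
  have n3 := Complex.normSq_nonneg z'.1
  have n4 := Complex.normSq_nonneg z'.2
  rcases mul_eq_zero.1 hL with h | h
  · apply hz
    apply Prod.ext
    · exact Complex.normSq_eq_zero.1 (by linarith)
    · exact Complex.normSq_eq_zero.1 (by linarith)
  · apply hz'
    apply Prod.ext
    · exact Complex.normSq_eq_zero.1 (by linarith)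
    · exact Complex.normSq_eq_zero.1 (by linarith)

end Pool.Agent.Y498.FQ
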