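import Pool.Agent.Y498.FQ.Hopf

set_option autoImplicit false
open Set Topology Filter
open scoped ComplexConjugate

namespace Pool.Agent.Y498.FQ

open Pool.Agent.H289R3.FQ (T1)

/-- the (unnormalised) projection to the eigenline -/
noncomputable def Pr (w : ℂ × ℝ) (z : ℂ × ℂ) : ℂ × ℂ :=
  (rr w * z.1 + (w.2 * z.1 + w.1 * z.2), rr w * z.2 + (conj w.1 * z.1 - w.2 * z.2))

theorem Pr_EL (w : ℂ × ℝ) (z : ℂ × ℂ) : EL w (Pr w z) := by
  have h1 : ((rr w : ℝ) : ℂ) ^ 2 = w.1 * conj w.1 + (w.2 : ℂ) ^ 2 := by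
    rw [Complex.mul_conj]
    exact_mod_cast rr_sq w
  unfold EL Pr
  simp only
  constructor
  · linear_combination (-z.1) * h1
  · linear_combination (-z.2) * h1

theorem Pr_ne {w w' : ℂ × ℝ} {z : ℂ × ℂ} (hz : z ≠ 0) (h : EL w' z) (hd : rr (w' - w) < rr w) :
    Pr w z ≠ 0 := by
  intro h0
  have h1 := congrArg Prod.fst h0
  have h2 := congrArg Prod.snd h0
  simp only [Pr, Prod.fst_zero, Prod.snd_zero] at h1 h2
  obtain ⟨e1, e2⟩ := h
  -- `(r + r')² z = rr (w' - w) ² z`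
  have hsq : ((rr (w' - w) : ℝ) : ℂ) ^ 2 =
      (w'.1 - w.1) * (conj w'.1 - conj w.1) + ((w'.2 : ℂ) - w.2) ^ 2 := by
    have := rr_sq (w' - w)
    have h3 : (((rr (w' - w)) ^ 2 : ℝ) : ℂ) =
      ((Complex.normSq (w' - w).1 + (w' - w).2 ^ 2 : ℝ) : ℂ) := by rw [this]
    push_cast at h3
    rw [h3, ← Complex.mul_conj]
    simp
  have k1 : (((rr w : ℝ) : ℂ) + rr w') ^ 2 * z.1 = ((rr (w' - w) : ℝ) : ℂ) ^ 2 * z.1 := by
    rw [hsq]
    have a1 : ((w'.2 : ℂ) - w.2) * z.1 + (w'.1 - w.1) * z.2 = (rr w + rr w') * z.1 := by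
      linear_combination e1 - h1
    have a2 : (conj w'.1 - conj w.1) * z.1 - ((w'.2 : ℂ) - w.2) * z.2 = (rr w + rr w') * z.2 := by
      linear_combination e2 - h2
    linear_combination (-((w'.2 : ℂ) - w.2) - (rr w + rr w')) * a1 - (w'.1 - w.1) * a2
  have k2 : (((rr w : ℝ) : ℂ) + rr w') ^ 2 * z.2 = ((rr (w' - w) : ℝ) : ℂ) ^ 2 * z.2 := by
    rw [hsq]
    have a1 : ((w'.2 : ℂ) - w.2) * z.1 + (w'.1 - w.1) * z.2 = (rr w + rr w') * z.1 := by
      linear_combination e1 - h1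
    have a2 : (conj w'.1 - conj w.1) * z.1 - ((w'.2 : ℂ) - w.2) * z.2 = (rr w + rr w') * z.2 := by
      linear_combination e2 - h2
    linear_combination (((w'.2 : ℂ) - w.2) - (rr w + rr w')) * a2 - (conj w'.1 - conj w.1) * a1
  have hne : (((rr w : ℝ) : ℂ) + rr w') ^ 2 - ((rr (w' - w) : ℝ) : ℂ) ^ 2 ≠ 0 := by
    have n1 := rr_nonneg w'
    have n2 := rr_nonneg (w' - w)
    have : (rr w + rr w') ^ 2 - rr (w' - w) ^ 2 ≠ 0 := by
      have : 0 < (rr w + rr w') ^ 2 - rr (w' - w) ^ 2 := by nlinarith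
      exact this.ne'
    exact_mod_cast this
  apply hz
  apply Prod.ext
  · have : ((((rr w : ℝ) : ℂ) + rr w') ^ 2 - ((rr (w' - w) : ℝ) : ℂ) ^ 2) * z.1 = 0 := by
      linear_combination k1
    exact (mul_eq_zero.1 this).resolve_left hne
  · have : ((((rr w : ℝ) : ℂ) + rr w') ^ 2 - ((rr (w' - w) : ℝ) : ℂ) ^ 2) * z.2 = 0 := by
      linear_combination k2
    exact (mul_eq_zero.1 this).resolve_left hne

theorem exists_EL {w : ℂ × ℝ} (hw : w ≠ 0) : ∃ z, z ≠ 0 ∧ EL w z := by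
  have hr := rr_pos hw
  by_cases h1 : Pr w (1, 0) = 0
  · refine ⟨Pr w (0, 1), ?_, Pr_EL _ _⟩
    intro h2
    have a1 := congrArg Prod.fst h1
    have a2 := congrArg Prod.snd h2
    simp only [Pr, Prod.fst_zero, Prod.snd_zero, mul_zero, mul_one, add_zero, zero_sub] at a1 a2
    have : (2 * (rr w : ℂ)) = 0 := by linear_combination a1 + a2
    rcases mul_eq_zero.1 this with h | h
    · norm_num at h
    · exact hr.ne' (by exact_mod_cast h)
  · exact ⟨Pr w (1, 0), h1, Pr_EL _ _⟩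

theorem rr_le (w : ℂ × ℝ) : rr w ≤ 2 * ‖w‖ := by
  have h1 : ‖w.1‖ ≤ ‖w‖ := norm_fst_le w
  have h2 : ‖w.2‖ ≤ ‖w‖ := norm_snd_le w
  have h3 : rr w ^ 2 ≤ (2 * ‖w‖) ^ 2 := by
    rw [rr_sq, Complex.normSq_eq_norm_sq]
    have h4 : w.2 ^ 2 ≤ ‖w‖ ^ 2 := by
      rw [← sq_abs]
      exact pow_le_pow_left₀ (abs_nonneg _) (by rwa [← Real.norm_eq_abs]) 2
    nlinarith [norm_nonneg w.1, norm_nonneg w]
  exact le_of_sq_le_sq h3 (by positivity)

variable {V : Type*} [NormedAddCommGroup V] [NormedSpace ℝ V] [FiniteDimensional ℝ V]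

/-- A continuous nowhere zero map from a ball to `ℂ × ℝ` lifts to the eigenlines. -/
theorem exists_spinor {p : V → ℂ × ℝ} (hp : Continuous p) (hne : ∀ x, p x ≠ 0) (R : ℝ) :
    ∃ z : V → ℂ × ℂ, Continuous z ∧ ∀ x, ‖x‖ ≤ R → z x ≠ 0 ∧ EL (p x) (z x) := by
  rcases lt_or_ge R 0 with hR | hR
  · exact ⟨fun _ => 0, continuous_const, fun x hx => by
      have := norm_nonneg x
      linarith⟩
  have hB : IsCompact (Metric.closedBall (0 : V) R) := isCompact_closedBall _ _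
  obtain ⟨x0, hx0, hmin⟩ := hB.exists_isMinOn ⟨0, Metric.mem_closedBall_self hR⟩
    (rr_cont.comp hp).continuousOn
  set δ := rr (p x0) with hδ
  have hδ0 : 0 < δ := rr_pos (hne x0)
  have hmin' : ∀ x, ‖x‖ ≤ R → δ ≤ rr (p x) := by
    intro x hx
    exact hmin (by simpa using hx)
  have huc := hB.uniformContinuousOn_of_continuous hp.continuousOn
  rw [Metric.uniformContinuousOn_iff] at huc
  obtain ⟨η, hη, huc⟩ := huc (δ / 2) (by positivity)
  obtain ⟨N, hN⟩ := exists_nat_gt (R / η)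
  have hNpos : (0 : ℝ) < N + 1 := by positivity
  have hN' : R / (N + 1) < η := by
    rw [div_lt_iff₀ hη] at hN
    rw [div_lt_iff₀ hNpos]
    nlinarith
  obtain ⟨z0, hz0, hz0E⟩ := exists_EL (hne 0)
  let F : ℕ → V → ℂ × ℂ := fun k => Nat.rec (fun _ => z0)
    (fun k G x => Pr (p ((((k + 1 : ℕ) : ℝ) / (N + 1)) • x)) (G x)) k
  have hF0 : ∀ x, F 0 x = z0 := fun _ => rfl
  have hFs : ∀ k x, F (k + 1) x = Pr (p ((((k + 1 : ℕ) : ℝ) / (N + 1)) • x)) (F k x) :=
    fun _ _ => rfl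
  have hPrc : Continuous (fun q : (ℂ × ℝ) × (ℂ × ℂ) => Pr q.1 q.2) := by
    unfold Pr
    have := rr_cont
    have := Complex.continuous_conj
    fun_prop
  have hFc : ∀ k, Continuous (F k) := by
    intro k
    induction k with
    | zero => exact continuous_const
    | succ k ih =>
      have : F (k + 1) = fun x => Pr (p ((((k + 1 : ℕ) : ℝ) / (N + 1)) • x)) (F k x) := by
        funext x; exact hFs k x
      rw [this]
      exact hPrc.comp ((hp.comp (continuous_const_smul _)).prodMk ih)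
  have key : ∀ k : ℕ, k ≤ N + 1 → ∀ x, ‖x‖ ≤ R →
      F k x ≠ 0 ∧ EL (p (((k : ℝ) / (N + 1)) • x)) (F k x) := by
    intro k
    induction k with
    | zero =>
      intro _ x _
      rw [hF0]
      refine ⟨hz0, ?_⟩
      simpa using hz0E
    | succ k ih =>
      intro hk x hx
      obtain ⟨h1, h2⟩ := ih (by omega) x hx
      rw [hFs]
      refine ⟨?_, Pr_EL _ _⟩
      apply Pr_ne h1 h2
      have hk' : ((k + 1 : ℕ) : ℝ) ≤ N + 1 := by exact_mod_cast hk
      have hs : ∀ c : ℝ, 0 ≤ c → c ≤ 1 → ‖c • x‖ ≤ R := by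
        intro c hc0 hc1
        rw [norm_smul, Real.norm_of_nonneg hc0]
        nlinarith [norm_nonneg x]
      have c1 : 0 ≤ (k : ℝ) / (N + 1) := by positivity
      have c2 : (k : ℝ) / (N + 1) ≤ 1 := by
        rw [div_le_one hNpos]; push_cast at hk'; linarith
      have c3 : 0 ≤ ((k + 1 : ℕ) : ℝ) / (N + 1) := by positivity
      have c4 : ((k + 1 : ℕ) : ℝ) / (N + 1) ≤ 1 := by
        rw [div_le_one hNpos]; exact hk'
      have hdist : dist (((k : ℝ) / (N + 1)) • x) ((((k + 1 : ℕ) : ℝ) / (N + 1)) • x) < η := by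
        rw [dist_eq_norm, ← sub_smul, norm_smul]
        have e : (k : ℝ) / (N + 1) - ((k + 1 : ℕ) : ℝ) / (N + 1) = -(1 / (N + 1)) := by
          push_cast
          field_simp
          ring
        rw [e, norm_neg, Real.norm_of_nonneg (by positivity)]
        calc 1 / ((N : ℝ) + 1) * ‖x‖ ≤ 1 / ((N : ℝ) + 1) * R :=
              mul_le_mul_of_nonneg_left hx (by positivity)
          _ = R / (N + 1) := by ring
          _ < η := hN'
      have h3 := huc _ (by simpa using hs _ c1 c2) _ (by simpa using hs _ c3 c4) hdist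
      rw [dist_eq_norm] at h3
      have h4 := rr_le (p (((k : ℝ) / (N + 1)) • x) - p ((((k + 1 : ℕ) : ℝ) / (N + 1)) • x))
      have h5 := hmin' _ (hs _ c3 c4)
      linarith
  refine ⟨F (N + 1), hFc (N + 1), fun x hx => ?_⟩
  have := key (N + 1) le_rfl x hx
  have e : (((N + 1 : ℕ) : ℝ) / ((N : ℝ) + 1)) = 1 := by
    push_cast
    exact div_self hNpos.ne'
  rw [e, one_smul] at this
  exact this

/-- The trivialisation of the pulled back circle bundle. -/
theorem exists_theta {p : V → ℂ × ℝ} (hp : Continuous p) (hne : ∀ x, p x ≠ 0) (R : ℝ) :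
    ∃ Θ : V → ℝ → ℝ → T1,
      ContinuousOn (fun x : V × ℝ × ℝ => Θ x.1 x.2.1 x.2.2)
        {x | ‖x.1‖ < R ∧ p x.1 = hopf (ZZ (x.2.1, x.2.2))} ∧
      ∀ (q : V) (u v : ℝ), ‖q‖ < R → p q = hopf (ZZ (u, v)) →
        Θ q (u + 1) v = Θ q u v ∧ Θ q u (v + 1) = Θ q u v + (u : T1) := by
  obtain ⟨z, hz, hzE⟩ := exists_spinor hp hne R
  let I : V → ℝ × ℝ → ℂ := fun q t => conj (z q).1 * (ZZ t).1 + conj (z q).2 * (ZZ t).2
  have hI : ∀ q t, ‖q‖ < R → p q = hopf (ZZ t) → I q t ≠ 0 := by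
    intro q t hq hqt
    obtain ⟨h1, h2⟩ := hzE q hq.le
    refine inner_ne (hne q) h1 (ZZ_ne t) h2 ?_
    rw [hqt]
    exact EL_hopf _
  have hIc : Continuous (fun x : V × ℝ × ℝ => I x.1 x.2) := by
    have h1 : Continuous (fun x : V × ℝ × ℝ => z x.1) := hz.comp continuous_fst
    have h2 : Continuous (fun x : V × ℝ × ℝ => ZZ x.2) := ZZ_cont.comp continuous_snd
    exact ((Complex.continuous_conj.comp (continuous_fst.comp h1)).mul
      (continuous_fst.comp h2)).add ((Complex.continuous_conj.comp (continuous_snd.comp h1)).mul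
      (continuous_snd.comp h2))
  refine ⟨fun q u v => ang (I q (u, v)), ?_, ?_⟩
  · intro x hx
    have h1 : ContinuousAt (fun x : V × ℝ × ℝ => I x.1 x.2) x := hIc.continuousAt
    have h2 : ContinuousAt ang (I x.1 x.2) := ang_cont (hI x.1 x.2 hx.1 hx.2)
    exact (ContinuousAt.comp (f := fun x : V × ℝ × ℝ => I x.1 x.2) h2 h1).continuousWithinAt
  · intro q u v hq hqt
    constructor
    · simp only [I]
      rw [ZZ_u]
    · have e : I q (u, v + 1) = ex u * I q (u, v) := by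
        simp only [I]
        rw [ZZ_v]
        ring
      simp only
      rw [e, ang_mul (hI q (u, v) hq hqt)]

end Pool.Agent.Y498.FQ
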