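import Pool.Agent.Y498.FQ.Flow

set_option autoImplicit false
open Set Topology Filter
open scoped Pointwise

namespace Pool.Agent.Y498.FQ

variable {Y N : Type*} [TopologicalSpace Y] [TopologicalSpace N] {φ : ℝ → Y → Y} {f : Y → N}

/-- the discounted maximum of `ρ` along the orbit of `y` -/
noncomputable def MM (φ : ℝ → Y → Y) (ρ : Y → ℝ) (y : Y) : ℝ :=
  sSup (range fun t : ℝ => Real.exp (-t) * ρ (φ t y))

/-- the discounted maximum over a bounded time interval -/
noncomputable def MA (φ : ℝ → Y → Y) (ρ : Y → ℝ) (A : ℝ) (y : Y) : ℝ :=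
  sSup ((fun t : ℝ => Real.exp (-t) * ρ (φ t y)) '' Icc (-A) A)

theorem MA_cont (h : OFlow φ f) {ρ : Y → ℝ} (hρ : Continuous ρ) (A : ℝ) :
    Continuous (MA φ ρ A) := by
  unfold MA
  refine isCompact_Icc.continuous_sSup (f := fun (y : Y) (t : ℝ) => Real.exp (-t) * ρ (φ t y)) ?_
  have h1 : Continuous (fun p : Y × ℝ => φ p.2 p.1) :=
    h.cont.comp (continuous_snd.prodMk continuous_fst)
  have h2 : Continuous (fun p : Y × ℝ => Real.exp (-p.2) * ρ (φ p.2 p.1)) :=
    (Real.continuous_exp.comp continuous_snd.neg).mul (hρ.comp h1)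
  exact h2

theorem MM_flow (h : OFlow φ f) (ρ : Y → ℝ) (s : ℝ) (y : Y) :
    MM φ ρ (φ s y) = Real.exp s * MM φ ρ y := by
  unfold MM
  have h1 : (range fun t : ℝ => Real.exp (-t) * ρ (φ t (φ s y))) =
      (fun x => Real.exp s * x) '' (range fun t : ℝ => Real.exp (-t) * ρ (φ t y)) := by
    ext x
    constructor
    · rintro ⟨t, rfl⟩
      refine ⟨_, ⟨t + s, rfl⟩, ?_⟩
      simp only
      rw [h.add, ← mul_assoc, ← Real.exp_add]
      congr 2
      ring
    · rintro ⟨_, ⟨t, rfl⟩, rfl⟩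
      refine ⟨t - s, ?_⟩
      simp only
      rw [← h.add, ← mul_assoc, ← Real.exp_add, sub_add_cancel]
      congr 2
      ring
  have h2 : (fun x => Real.exp s * x) '' (range fun t : ℝ => Real.exp (-t) * ρ (φ t y)) =
      Real.exp s • (range fun t : ℝ => Real.exp (-t) * ρ (φ t y)) := rfl
  rw [h1, h2, Real.sSup_smul_of_nonneg (Real.exp_pos s).le, smul_eq_mul]

/-- If the orbit of `w` meets the support of `ρ` at no time before `-A`, and `exp (-A)` is smaller
than the discounted maximum over `[-A, A]`, then this is the total discounted maximum. -/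
theorem MM_eq_MA (h : OFlow φ f) {ρ : Y → ℝ} (hρc : Continuous ρ)
    (hρ1 : ∀ y, ρ y ≤ 1) {A : ℝ} (hA : 0 ≤ A) {w : Y} (hw : ∀ t < -A, ρ (φ t w) = 0)
    (hMA : Real.exp (-A) < MA φ ρ A w) : MM φ ρ w = MA φ ρ A w := by
  have hcont : Continuous (fun t : ℝ => Real.exp (-t) * ρ (φ t w)) :=
    (Real.continuous_exp.comp continuous_neg).mul (hρc.comp (h.orbit_cont w))
  have hbd : BddAbove ((fun t : ℝ => Real.exp (-t) * ρ (φ t w)) '' Icc (-A) A) :=
    (isCompact_Icc.image hcont).bddAbove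
  have hle : ∀ t, Real.exp (-t) * ρ (φ t w) ≤ MA φ ρ A w := by
    intro t
    by_cases h1 : t < -A
    · rw [hw t h1, mul_zero]
      exact (Real.exp_pos _).le.trans hMA.le
    · by_cases h2 : t ≤ A
      · exact le_csSup hbd ⟨t, ⟨not_lt.1 h1, h2⟩, rfl⟩
      · push Not at h2
        have : Real.exp (-t) ≤ Real.exp (-A) := Real.exp_le_exp.2 (by linarith)
        calc Real.exp (-t) * ρ (φ t w) ≤ Real.exp (-t) * 1 :=
              mul_le_mul_of_nonneg_left (hρ1 _) (Real.exp_pos _).le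
          _ ≤ MA φ ρ A w := by rw [mul_one]; exact this.trans hMA.le
  apply le_antisymm
  · exact csSup_le (range_nonempty _) (by rintro _ ⟨t, rfl⟩; exact hle t)
  · apply csSup_le_csSup ⟨_, by rintro _ ⟨t, rfl⟩; exact hle t⟩
    · exact ⟨_, ⟨0, ⟨by linarith, hA⟩, rfl⟩⟩
    · rintro _ ⟨t, -, rfl⟩
      exact ⟨t, rfl⟩

/-- Over a compact set of free orbits there is a continuous section.  (No local sections are
assumed; one takes the first passage of the orbit through a compact set.) -/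
theorem OFlow.exists_section [Nonempty Y] [T2Space Y] [LocallyCompactSpace Y] [T2Space N]
    (h : OFlow φ f) {K : Set N} (hK : IsCompact K) (hr : K ⊆ range f)
    (hfree : ∀ y, f y ∈ K → ∀ t, φ t y = y → t = 0) :
    ∃ σ : N → Y, ContinuousOn σ K ∧ ∀ m ∈ K, f (σ m) = m := by
  classical
  choose! p hp using fun m (hm : m ∈ K) => hr hm
  -- a compact set meeting all orbits
  obtain ⟨L, hL, hLK⟩ : ∃ L : Set Y, IsCompact L ∧ K ⊆ f '' (interior L) := by
    choose! C hCc hCn using fun y : Y => exists_compact_mem_nhds y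
    obtain ⟨t, ht⟩ := hK.elim_nhds_subcover' (fun m _ => f '' interior (C (p m)))
      (fun m hm => (h.fopen _ isOpen_interior).mem_nhds
        ⟨p m, mem_interior_iff_mem_nhds.2 (hCn _), hp m hm⟩)
    refine ⟨⋃ m ∈ t, C (p m.1), t.finite_toSet.isCompact_biUnion (fun m _ => hCc _), ?_⟩
    intro m hm
    obtain ⟨i, hi⟩ := mem_iUnion.1 (ht hm)
    obtain ⟨hi1, y, hy, hym⟩ := mem_iUnion.1 hi
    refine ⟨y, ?_, hym⟩
    exact interior_mono (subset_biUnion_of_mem (u := fun m : K => C (p m.1)) hi1) hy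
  obtain ⟨ρ, hρL, -, hρs, hρ01⟩ := exists_continuous_one_zero_of_isCompact hL isClosed_empty
    (disjoint_empty L)
  set S : Set Y := tsupport ρ with hSd
  have hS : IsCompact S := hρs
  have hρS : ∀ y, y ∉ S → ρ y = 0 := fun y hy => image_eq_zero_of_notMem_tsupport hy
  have hLS : ∀ y ∈ L, y ∈ S := by
    intro y hy
    apply subset_tsupport
    rw [Function.mem_support, hρL hy]
    exact one_ne_zero
  have hmeet : ∀ m ∈ K, ∀ y, f y = m → ∃ t, φ t y ∈ L := by
    intro m hm y hy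
    obtain ⟨z, hz, hzm⟩ := hLK hm
    obtain ⟨t, ht⟩ := (h.fibre y z).1 (hy.trans hzm.symm)
    exact ⟨t, by rw [ht]; exact interior_subset hz⟩
  have hbdt : ∀ y, f y ∈ K → ∃ A : ℝ, 1 ≤ A ∧ ∀ t, φ t y ∈ S → |t| ≤ A := by
    intro y hy
    obtain ⟨B, hB⟩ := (h.compact_times (hfree y hy) hS).isBounded.exists_norm_le
    exact ⟨max 1 B, le_max_left _ _, fun t ht => (hB t ht).trans (le_max_right _ _)⟩
  have hbdd : ∀ y, f y ∈ K → BddAbove (range fun t : ℝ => Real.exp (-t) * ρ (φ t y)) := by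
    intro y hy
    obtain ⟨A, hA1, hA⟩ := hbdt y hy
    refine ⟨Real.exp A, ?_⟩
    rintro _ ⟨t, rfl⟩
    simp only
    by_cases ht : φ t y ∈ S
    · have h1 := hA t ht
      have h2 : Real.exp (-t) ≤ Real.exp A := Real.exp_le_exp.2 (by
        rw [abs_le] at h1; linarith [h1.1])
      calc Real.exp (-t) * ρ (φ t y) ≤ Real.exp (-t) * 1 :=
            mul_le_mul_of_nonneg_left (hρ01 _).2 (Real.exp_pos _).le
        _ ≤ Real.exp A := by rw [mul_one]; exact h2
    · rw [hρS _ ht, mul_zero]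
      exact (Real.exp_pos _).le
  have hMpos : ∀ y, f y ∈ K → 0 < MM φ ρ y := by
    intro y hy
    obtain ⟨t, ht⟩ := hmeet _ hy y rfl
    have h1 : Real.exp (-t) * ρ (φ t y) ≤ MM φ ρ y := le_csSup (hbdd y hy) ⟨t, rfl⟩
    rw [hρL ht] at h1
    simp only [Pi.one_apply, mul_one] at h1
    exact (Real.exp_pos _).trans_le h1
  let σ : N → Y := fun m => φ (-Real.log (MM φ ρ (p m))) (p m)
  have hσf : ∀ m ∈ K, f (σ m) = m := by
    intro m hm
    simp only [σ]
    rw [h.f_flow, hp m hm]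
  have hσ : ∀ w, f w ∈ K → φ (-Real.log (MM φ ρ w)) w = σ (f w) := by
    intro w hw
    obtain ⟨r, hr'⟩ := (h.fibre (p (f w)) w).1 (hp _ hw)
    have hpos : 0 < MM φ ρ (p (f w)) := hMpos _ (by rw [hp _ hw]; exact hw)
    have e1 : MM φ ρ w = Real.exp r * MM φ ρ (p (f w)) := by
      conv_lhs => rw [← hr']
      exact MM_flow h ρ r _
    rw [e1, Real.log_mul (Real.exp_pos _).ne' hpos.ne', Real.log_exp]
    conv_lhs => rw [← hr', ← h.add]
    simp only [σ]
    congr 1
    rw [hr']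
    ring
  have hMσ : ∀ m ∈ K, MM φ ρ (σ m) = 1 := by
    intro m hm
    have hpos : 0 < MM φ ρ (p m) := hMpos _ (by rw [hp _ hm]; exact hm)
    simp only [σ]
    rw [MM_flow h, Real.exp_neg, Real.exp_log hpos, inv_mul_cancel₀ hpos.ne']
  refine ⟨σ, ?_, hσf⟩
  intro m1 hm1
  set z1 := σ m1 with hz1
  have hfz1 : f z1 = m1 := hσf m1 hm1
  obtain ⟨A, hA1, hA⟩ := hbdt z1 (by rw [hfz1]; exact hm1)
  have hA0 : 0 ≤ A := by linarith
  have hexpA : Real.exp (-A) < 1 := by
    rw [Real.exp_lt_one_iff]; linarith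
  have hMA1 : Real.exp (-A) < MA φ ρ A z1 := by
    have h1 : Real.exp (-A) < MM φ ρ z1 := by rw [hMσ m1 hm1]; exact hexpA
    obtain ⟨_, ⟨t, rfl⟩, ht⟩ := exists_lt_of_lt_csSup (range_nonempty _) h1
    have htS : φ t z1 ∈ S := by
      by_contra hcon
      simp only at ht
      rw [hρS _ hcon, mul_zero] at ht
      exact absurd ht (not_lt.2 (Real.exp_pos _).le)
    have ht' := abs_le.1 (hA t htS)
    have hcont : Continuous (fun t : ℝ => Real.exp (-t) * ρ (φ t z1)) :=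
      (Real.continuous_exp.comp continuous_neg).mul (ρ.continuous.comp (h.orbit_cont z1))
    exact ht.trans_le (le_csSup (isCompact_Icc.image hcont).bddAbove ⟨t, ht', rfl⟩)
  have hMAz : MA φ ρ A z1 = 1 := by
    rw [← hMσ m1 hm1]
    refine (MM_eq_MA h ρ.continuous (fun y => (hρ01 y).2) hA0 ?_ hMA1).symm
    intro t ht
    apply hρS
    intro hcon
    have := abs_le.1 (hA t hcon)
    linarith [this.1]
  let G : Y → Y := fun w => φ (-Real.log (MA φ ρ A w)) w
  have hG1 : G z1 = z1 := by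
    simp only [G]
    rw [hMAz, Real.log_one, neg_zero, h.zero]
  have hGc : ContinuousAt G z1 := by
    have h1 : ContinuousAt (fun w => -Real.log (MA φ ρ A w)) z1 :=
      ((MA_cont h ρ.continuous A).continuousAt.log (by rw [hMAz]; exact one_ne_zero)).neg
    exact h.cont.continuousAt.comp (h1.prodMk continuousAt_id)
  intro U hU
  have hU' : U ∈ 𝓝 z1 := hU
  have hW0 : {w | G w ∈ U ∧ Real.exp (-A) < MA φ ρ A w} ∈ 𝓝 z1 := by
    refine Filter.inter_mem ?_ ?_
    · apply hGc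
      rw [hG1]
      exact hU'
    · exact (isOpen_lt continuous_const (MA_cont h ρ.continuous A)).mem_nhds hMA1
  obtain ⟨W, hWsub, hWo, hz1W⟩ := mem_nhds_iff.1 hW0
  let O : Set Y := ⋃ a ∈ Icc (-A) A, φ (-a) ⁻¹' W
  have hO : IsOpen O := isOpen_biUnion fun a _ => hWo.preimage (h.time_cont _)
  have hcl : IsClosed (f '' (S \ O)) := ((hS.diff hO).image h.fcont).isClosed
  have hnot : m1 ∉ f '' (S \ O) := by
    rintro ⟨u, ⟨huS, huO⟩, hum⟩
    obtain ⟨t, rfl⟩ := (h.fibre z1 u).1 (hfz1.trans hum.symm)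
    apply huO
    refine mem_iUnion₂.2 ⟨t, abs_le.1 (hA t huS), ?_⟩
    change φ (-t) (φ t z1) ∈ W
    rw [← h.add, neg_add_cancel, h.zero]
    exact hz1W
  rw [Filter.mem_map]
  have hev : ∀ᶠ m in 𝓝[K] m1, m ∈ K ∧ m ∉ f '' (S \ O) :=
    Filter.inter_mem self_mem_nhdsWithin (mem_nhdsWithin_of_mem_nhds (hcl.isOpen_compl.mem_nhds hnot))
  filter_upwards [hev] with m hm
  obtain ⟨hmK, hm⟩ := hm
  have hpm := hp m hmK
  have hTc : IsCompact {t : ℝ | φ t (p m) ∈ S} :=
    h.compact_times (hfree _ (by rw [hpm]; exact hmK)) hS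
  have hTn : {t : ℝ | φ t (p m) ∈ S}.Nonempty := by
    obtain ⟨t, ht⟩ := hmeet m hmK (p m) hpm
    exact ⟨t, hLS _ ht⟩
  obtain ⟨t0, ht0, hmin⟩ := hTc.exists_isLeast hTn
  have huO : φ t0 (p m) ∈ O := by
    by_contra hcon
    exact hm ⟨φ t0 (p m), ⟨ht0, hcon⟩, by rw [h.f_flow, hpm]⟩
  obtain ⟨a, ha, haW⟩ := mem_iUnion₂.1 huO
  set w := φ (-a) (φ t0 (p m)) with hw
  have hwW : w ∈ W := haW
  obtain ⟨hGU, hMAw⟩ := hWsub hwW
  have hfw : f w = m := by rw [hw, h.f_flow, h.f_flow, hpm]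
  have hMw : MM φ ρ w = MA φ ρ A w := by
    refine MM_eq_MA h ρ.continuous (fun y => (hρ01 y).2) hA0 ?_ hMAw
    intro t ht
    apply hρS
    intro hcon
    rw [hw, ← h.add, ← h.add] at hcon
    have h1 := hmin hcon
    linarith [ha.1]
  change σ m ∈ U
  have := hσ w (by rw [hfw]; exact hmK)
  rw [hfw, hMw] at this
  rw [← this]
  exact hGU

end Pool.Agent.Y498.FQ
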