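import Pool.Agent.Y498.FQ.BData
import Pool.Agent.Y498.FQ.Section
import Pool.Agent.Y498.FQ.Lift
import Pool.Agent.H790.FQ.Torus
import Pool.Agent.H672R3.FQ.Stokes

set_option autoImplicit false
open Set Topology Filter

namespace Pool.Agent.Y498.FQ

open Pool.Agent.H289R3.FQ (T1 ee)

/-- the standard map of the two-torus to `ℂ × ℝ` minus the origin -/
noncomputable def e2 (u v : ℝ) : ℂ × ℝ := hopf (ZZ (u, v))

theorem e2_u (u v : ℝ) : e2 (u + 1) v = e2 u v := by unfold e2; rw [ZZ_u]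

theorem e2_v (u v : ℝ) : e2 u (v + 1) = e2 u v := by unfold e2; rw [ZZ_v, hopf_ex]

theorem e2_ne (u v : ℝ) : e2 u v ≠ 0 := hopf_ne (ZZ_ne _)

theorem e2_cont : Continuous (fun p : ℝ × ℝ => e2 p.1 p.2) := hopf_cont.comp ZZ_cont

/-- three nonzero vectors of `ℂ × ℝ` -/
abbrev W3 : Type := {w : Fin 3 → ℂ × ℝ // ∀ j, w j ≠ 0}

/-- the five-torus in the product of three punctured three-spaces -/
noncomputable def tor (y : Fin 5 → ℝ) : W3 :=
  ⟨![e2 (y 0) (y 1), e2 (y 2) (y 4), e2 (y 2) (y 3)], by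
    intro j
    fin_cases j
    · exact e2_ne _ _
    · exact e2_ne _ _
    · exact e2_ne _ _⟩

theorem tor_cont : Continuous tor := by
  have h0 : Continuous (fun y : Fin 5 → ℝ => e2 (y 0) (y 1)) :=
    e2_cont.comp (f := fun y : Fin 5 → ℝ => (y 0, y 1)) (by fun_prop)
  have h1 : Continuous (fun y : Fin 5 → ℝ => e2 (y 2) (y 4)) :=
    e2_cont.comp (f := fun y : Fin 5 → ℝ => (y 2, y 4)) (by fun_prop)
  have h2 : Continuous (fun y : Fin 5 → ℝ => e2 (y 2) (y 3)) :=
    e2_cont.comp (f := fun y : Fin 5 → ℝ => (y 2, y 3)) (by fun_prop)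
  apply Continuous.subtype_mk
  rw [continuous_pi_iff]
  intro j
  fin_cases j
  · change Continuous (fun y : Fin 5 → ℝ => e2 (y 0) (y 1))
    exact h0
  · change Continuous (fun y : Fin 5 → ℝ => e2 (y 2) (y 4))
    exact h1
  · change Continuous (fun y : Fin 5 → ℝ => e2 (y 2) (y 3))
    exact h2

theorem tor_ee (y : Fin 5 → ℝ) (j : Fin 5) : tor (y + ee j) = tor y := by
  apply Subtype.ext
  change ![e2 ((y + ee j) 0) ((y + ee j) 1), e2 ((y + ee j) 2) ((y + ee j) 4),
    e2 ((y + ee j) 2) ((y + ee j) 3)] = ![e2 (y 0) (y 1), e2 (y 2) (y 4), e2 (y 2) (y 3)]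
  simp only [Pi.add_apply, ee]
  fin_cases j <;> simp [e2_u, e2_v]

theorem e2_int (u v : ℝ) (a b : ℤ) : e2 (u + a) (v + b) = e2 u v := by
  have h1 : ∀ (v : ℝ), Function.Periodic (fun u => e2 u v) 1 := fun v u => e2_u u v
  have h2 : ∀ (u : ℝ), Function.Periodic (fun v => e2 u v) 1 := fun u v => e2_v u v
  have e1 := (h1 (v + b)).int_mul a u
  have e2' := (h2 u).int_mul b v
  simp only [mul_one] at e1 e2'
  rw [e1, e2']

theorem tor_int (y : Fin 5 → ℝ) (k : Fin 5 → ℤ) : tor (fun j => y j + k j) = tor y := by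
  apply Subtype.ext
  change ![e2 (y 0 + k 0) (y 1 + k 1), e2 (y 2 + k 2) (y 4 + k 4), e2 (y 2 + k 2) (y 3 + k 3)] =
    ![e2 (y 0) (y 1), e2 (y 2) (y 4), e2 (y 2) (y 3)]
  rw [e2_int, e2_int, e2_int]

/-- A space that retracts onto the product of three punctured three-spaces is not the orbit space
of a continuous flow on a Euclidean space. -/
theorem not_orbit_space {m : ℕ} {Q : Type} [TopologicalSpace Q] [T2Space Q]
    (r : Q → Fin 3 → ℂ × ℝ) (hr : Continuous r) (hr0 : ∀ q j, r q j ≠ 0)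
    (e : W3 → Q) (he : Continuous e) (hre : ∀ w, r (e w) = w.1)
    {Φ : ℝ → EuclideanSpace ℝ (Fin m) → EuclideanSpace ℝ (Fin m)}
    {f : EuclideanSpace ℝ (Fin m) → Q}
    (h : OFlow Φ f) (hsurjf : Function.Surjective f) : False := by
  classical
  have hTorus : Pool.Agent.H289R3.FQ.TaskTorus :=
    Pool.Agent.H790.FQ.taskTorus Pool.Agent.H672R3.FQ.taskStokes
  set tr : (Fin 5 → ℝ) → Q := fun y => e (tor y) with htr
  have trc : Continuous tr := he.comp tor_cont
  have tr_ee : ∀ y j, tr (y + ee j) = tr y := fun y j => by simp only [htr, tor_ee]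
  have tr_int : ∀ (y : Fin 5 → ℝ) (k : Fin 5 → ℤ), tr (fun j => y j + k j) = tr y :=
    fun y k => by simp only [htr, tor_int]
  have hsurj : ∀ y, ∃ x, f x = tr y := fun y => hsurjf _
  have hpc : ∀ j, Continuous (fun x => r (f x) j) := fun j =>
    (continuous_apply j).comp (hr.comp h.fcont)
  have hang0 : ∀ x y, f x = tr y → r (f x) 0 = hopf (ZZ (y 0, y 1)) := by
    intro x y hxy
    rw [hxy, htr]
    simp only
    rw [hre]
    rfl
  have hang1 : ∀ x y, f x = tr y → r (f x) 1 = hopf (ZZ (y 2, y 4)) := by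
    intro x y hxy
    rw [hxy, htr]
    simp only
    rw [hre]
    rfl
  have hang2 : ∀ x y, f x = tr y → r (f x) 2 = hopf (ZZ (y 2, y 3)) := by
    intro x y hxy
    rw [hxy, htr]
    simp only
    rw [hre]
    rfl
  -- the torus and its bad part
  have hTc : IsCompact (range tr) := by
    have : range tr = tr '' Icc 0 1 := by
      apply Subset.antisymm
      · rintro _ ⟨y, rfl⟩
        refine ⟨fun j => Int.fract (y j), ⟨fun j => Int.fract_nonneg _, fun j => (Int.fract_lt_one _).le⟩, ?_⟩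
        rw [← tr_int (fun j => Int.fract (y j)) (fun j => ⌊y j⌋)]
        congr 1
        funext j
        exact Int.fract_add_floor (y j)
      · rintro _ ⟨y, -, rfl⟩
        exact ⟨y, rfl⟩
    rw [this]
    exact isCompact_Icc.image trc
  let K : Set Q := {m | m ∈ range tr ∧ ¬ IsCompact (f ⁻¹' {m})}
  have hKc : IsCompact K := by
    apply hTc.of_isClosed_subset _ (fun m hm => hm.1)
    rw [← isOpen_compl_iff, isOpen_iff_mem_nhds]
    intro m hm
    by_cases hmT : m ∈ range tr
    · have hmc : IsCompact (f ⁻¹' {m}) := by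
        by_contra hcon
        exact hm ⟨hmT, hcon⟩
      obtain ⟨x, rfl⟩ := hsurjf m
      filter_upwards [h.compact_nhds hmc] with n hn hn'
      exact hn'.2 hn
    · filter_upwards [hTc.isClosed.isOpen_compl.mem_nhds hmT] with n hn hn'
      exact hn hn'.1
  obtain ⟨σ, hσc, hσ⟩ := h.exists_section hKc (by
    rintro m ⟨⟨y, rfl⟩, -⟩
    exact hsurj y) (by
    intro x hx t ht
    by_contra hne
    exact hx.2 (h.compact_of_periodic hne ht))
  -- a bound on the section
  have hbound : ∀ L : Set (EuclideanSpace ℝ (Fin m)), IsCompact L → ∃ R : ℝ, ∀ x ∈ L, ‖x‖ < R := by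
    intro L hL
    obtain ⟨B, hB⟩ := hL.exists_bound_of_continuousOn (f := fun x => x) continuousOn_id
    exact ⟨B + 1, fun x hx => (hB x hx).trans_lt (lt_add_one _)⟩
  obtain ⟨R₁, hR₁⟩ := hbound _ (hKc.image_of_continuousOn hσc)
  obtain ⟨Θ₁, hΘ₁c, hΘ₁⟩ := exists_theta (hpc 0) (fun x => hr0 _ _) R₁
  -- the bad set in the universal cover of the torus
  let C : Set (Fin 5 → ℝ) := {y | tr y ∈ K}
  have hCint : ∀ (y : Fin 5 → ℝ) (k : Fin 5 → ℤ), y ∈ C ↔ (fun j => y j + k j) ∈ C := by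
    intro y k
    simp only [C, mem_ofPred_eq, tr_int]
  have hangσ : ∀ y ∈ C, r (f (σ (tr y))) 0 = hopf (ZZ (y 0, y 1)) := by
    intro y hy
    exact hang0 _ _ (hσ _ hy)
  have hσR : ∀ y ∈ C, ‖σ (tr y)‖ < R₁ := fun y hy => hR₁ _ ⟨_, hy, rfl⟩
  refine hTorus C (hKc.isClosed.preimage trc) ?_
    (fun y => Θ₁ (σ (tr y)) (y 0) (y 1)) ?_ ?_ ?_
  · intro y j
    simp only [C, mem_ofPred_eq, tr_ee]
  · have hmaps : ContinuousOn (fun y : Fin 5 → ℝ =>
        ((σ (tr y), (y 0, y 1)) : EuclideanSpace ℝ (Fin m) × ℝ × ℝ)) C := by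
      apply ContinuousOn.prodMk
      · exact hσc.comp trc.continuousOn (fun y hy => hy)
      · exact Continuous.continuousOn (by fun_prop)
    exact hΘ₁c.comp hmaps (fun y hy => ⟨hσR y hy, hangσ y hy⟩)
  · intro y hy j
    simp only [tr_ee]
    obtain ⟨h1, h2⟩ := hΘ₁ (σ (tr y)) (y 0) (y 1) (hσR y hy) (hangσ y hy)
    by_cases hj0 : j = 0
    · subst hj0
      simp only [Pi.add_apply, ee, Pi.single_eq_same]
      rw [if_neg (by decide), add_zero]
      have : (Pi.single 0 1 : Fin 5 → ℝ) 1 = 0 := by simp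
      rw [this, add_zero]
      exact h1
    · by_cases hj1 : j = 1
      · subst hj1
        simp only [Pi.add_apply, ee, Pi.single_eq_same, if_true]
        have : (Pi.single 1 1 : Fin 5 → ℝ) 0 = 0 := by simp
        rw [this, add_zero]
        exact h2
      · simp only [Pi.add_apply, ee]
        have e0 : (Pi.single j 1 : Fin 5 → ℝ) 0 = 0 := by simp [Ne.symm hj0]
        have e1 : (Pi.single j 1 : Fin 5 → ℝ) 1 = 0 := by simp [Ne.symm hj1]
        rw [e0, e1, if_neg hj1]
        simp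
  · intro δ hδ
    let A : Set (Fin 5 → ℝ) := {y | ∀ c ∈ C, δ ≤ dist y c}
    have hAcl : IsClosed A := by
      have : A = ⋂ c ∈ C, {y | δ ≤ dist y c} := by
        ext y
        simp [A]
      rw [this]
      exact isClosed_biInter fun c _ => isClosed_le continuous_const (by fun_prop)
    have hAc : ∀ y ∈ A, IsCompact (f ⁻¹' {tr y}) := by
      intro y hy
      by_contra hcon
      have hyC : y ∈ C := ⟨⟨y, rfl⟩, hcon⟩
      have := hy y hyC
      rw [dist_self] at this
      linarith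
    have hTA : IsCompact (tr '' A) := by
      have : tr '' A = tr '' (A ∩ Icc 0 1) := by
        apply Subset.antisymm
        · rintro _ ⟨y, hy, rfl⟩
          refine ⟨fun j => Int.fract (y j), ⟨?_, fun j => Int.fract_nonneg _,
            fun j => (Int.fract_lt_one _).le⟩, ?_⟩
          · intro c hc
            have h1 := hy (fun j => c j + (⌊y j⌋ : ℤ)) ((hCint c _).1 hc)
            have h2 : dist (fun j => Int.fract (y j)) c =
                dist y (fun j => c j + (⌊y j⌋ : ℤ)) := by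
              rw [dist_eq_norm, dist_eq_norm]
              congr 1
              funext j
              simp only [Pi.sub_apply]
              have := Int.fract_add_floor (y j)
              linarith
            rw [h2]
            exact h1
          · rw [← tr_int (fun j => Int.fract (y j)) (fun j => ⌊y j⌋)]
            congr 1
            funext j
            exact Int.fract_add_floor (y j)
        · exact image_mono inter_subset_left
      rw [this]
      exact (isCompact_Icc.inter_left hAcl).image trc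
    obtain ⟨L, hL, hLA⟩ : ∃ L : Set (EuclideanSpace ℝ (Fin m)), IsCompact L ∧
        ∀ m ∈ tr '' A, f ⁻¹' {m} ⊆ L := by
      refine hTA.induction_on (p := fun s => ∃ L : Set (EuclideanSpace ℝ (Fin m)), IsCompact L ∧
        ∀ m ∈ s, f ⁻¹' {m} ⊆ L) ?_ ?_ ?_ ?_
      · exact ⟨∅, isCompact_empty, by simp⟩
      · rintro s t hst ⟨L, hL, hL'⟩
        exact ⟨L, hL, fun m hm => hL' m (hst hm)⟩
      · rintro s t ⟨L, hL, hL'⟩ ⟨L2, hL2, hL2'⟩
        refine ⟨L ∪ L2, hL.union hL2, ?_⟩
        rintro m (hm | hm)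
        · exact (hL' m hm).trans subset_union_left
        · exact (hL2' m hm).trans subset_union_right
      · rintro _ ⟨y, hy, rfl⟩
        obtain ⟨x, hx⟩ := hsurj y
        have hc := hAc y hy
        rw [← hx] at hc ⊢
        obtain ⟨L, hL, -, hev⟩ := h.stable hc isOpen_univ (subset_univ _)
        exact ⟨_, mem_nhdsWithin_of_mem_nhds hev, L, hL, fun m hm => hm⟩
    obtain ⟨R₂, hR₂⟩ := hbound L hL
    obtain ⟨Θ₂, hΘ₂c, hΘ₂⟩ := exists_theta (hpc 1) (fun x => hr0 _ _) R₂
    obtain ⟨Θ₃, hΘ₃c, hΘ₃⟩ := exists_theta (hpc 2) (fun x => hr0 _ _) R₂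
    refine bdata h trc tr_ee hsurj (O := {x | ‖x‖ < R₂}) ?_
      (D₁ := fun p => Θ₂ p.1 (p.2 2) (p.2 4)) (D₂ := fun p => Θ₃ p.1 (p.2 2) (p.2 3))
      ?_ ?_ ?_ ?_ (K := A) ?_
    · exact isOpen_lt continuous_norm continuous_const
    · have hmaps : Continuous (fun p : EuclideanSpace ℝ (Fin m) × (Fin 5 → ℝ) =>
          ((p.1, (p.2 2, p.2 4)) : EuclideanSpace ℝ (Fin m) × ℝ × ℝ)) := by
        fun_prop
      exact hΘ₂c.comp hmaps.continuousOn (fun p hp' => ⟨hp'.1, hang1 _ _ hp'.2⟩)
    · have hmaps : Continuous (fun p : EuclideanSpace ℝ (Fin m) × (Fin 5 → ℝ) =>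
          ((p.1, (p.2 2, p.2 3)) : EuclideanSpace ℝ (Fin m) × ℝ × ℝ)) := by
        fun_prop
      exact hΘ₃c.comp hmaps.continuousOn (fun p hp' => ⟨hp'.1, hang2 _ _ hp'.2⟩)
    · intro x y hx hxy j
      obtain ⟨h1, h2⟩ := hΘ₂ x (y 2) (y 4) hx (hang1 x y hxy)
      simp only [Pi.add_apply, ee]
      by_cases hj2 : j = 2
      · subst hj2
        have e4 : (Pi.single 2 1 : Fin 5 → ℝ) 4 = 0 := by simp
        rw [Pi.single_eq_same, e4, add_zero, if_neg (by decide)]
        simpa using h1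
      · have e2 : (Pi.single j 1 : Fin 5 → ℝ) 2 = 0 := by simp [Ne.symm hj2]
        rw [e2, add_zero]
        by_cases hj4 : j = 4
        · subst hj4
          rw [Pi.single_eq_same, if_pos rfl]
          exact h2
        · have e4 : (Pi.single j 1 : Fin 5 → ℝ) 4 = 0 := by simp [Ne.symm hj4]
          rw [e4, add_zero, if_neg hj4]
          simp
    · intro x y hx hxy j
      obtain ⟨h1, h2⟩ := hΘ₃ x (y 2) (y 3) hx (hang2 x y hxy)
      simp only [Pi.add_apply, ee]
      by_cases hj2 : j = 2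
      · subst hj2
        have e4 : (Pi.single 2 1 : Fin 5 → ℝ) 3 = 0 := by simp
        rw [Pi.single_eq_same, e4, add_zero, if_neg (by decide)]
        simpa using h1
      · have e2 : (Pi.single j 1 : Fin 5 → ℝ) 2 = 0 := by simp [Ne.symm hj2]
        rw [e2, add_zero]
        by_cases hj4 : j = 3
        · subst hj4
          rw [Pi.single_eq_same, if_pos rfl]
          exact h2
        · have e4 : (Pi.single j 1 : Fin 5 → ℝ) 3 = 0 := by simp [Ne.symm hj4]
          rw [e4, add_zero, if_neg hj4]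
          simp
    · intro y hy
      exact ⟨hAc y hy, fun x hx => hR₂ x (hLA _ ⟨y, hy, rfl⟩ hx)⟩

end Pool.Agent.Y498.FQ
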